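import Pool.Agent.Helper15.EP.St

set_option autoImplicit false

/-!
# Project EP, module PT2
-/

open Polynomial Pool.Agent.Helper15.FC Pool.Agent.Helper15.EP

namespace Pool.Agent.Helper3.EP

open scoped Classical in
theorem cram_neg' {F : Type} [Field F] [Fintype F] (e h : F[X]) : cram e (-h) = cram e h := by
  unfold cram
  simp only [dvd_neg]

theorem Gs_symm {F : Type} [Field F] [Fintype F] (k l : ℕ) (h : F[X]) (i : ℕ) :
    Gs l k (-h) i = Gs k l h i := by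
  unfold Gs
  refine Finset.sum_congr rfl fun r _ => ?_
  rw [cram_neg', mul_comm (Gk l r)]

open scoped Classical in
theorem NS_symm {F : Type} [Field F] [Fintype F] {k l : ℕ} (x : Fin k → ℕ) (y : Fin l → ℕ)
    (h : F[X]) : NS y x (-h) = NS x y h := by
  unfold NS
  refine Finset.card_bij' (fun p _ => (p.2, p.1)) (fun p _ => (p.2, p.1)) ?_ ?_ ?_ ?_
  · intro p hp
    rw [Finset.mem_filter, Finset.mem_product] at hp ⊢
    obtain ⟨⟨h1, h2⟩, h3⟩ := hp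
    refine ⟨⟨h2, h1⟩, ?_⟩
    show (∏ i, p.2 i) + h = ∏ j, p.1 j
    rw [← h3]
    ring
  · intro p hp
    rw [Finset.mem_filter, Finset.mem_product] at hp ⊢
    obtain ⟨⟨h1, h2⟩, h3⟩ := hp
    refine ⟨⟨h2, h1⟩, ?_⟩
    show (∏ i, p.2 i) + -h = ∏ j, p.1 j
    rw [← h3]
    ring
  · intro p _
    rfl
  · intro p _
    rfl

theorem hPT2 (hPT1 : StPT1) : StPT2 := by
  intro F _ _ k l h ε hh hε
  obtain ⟨δ1, n1, hδ1, H1⟩ := hPT1 F k l h ε hh hε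
  obtain ⟨δ2, n2, hδ2, H2⟩ := hPT1 F l k (-h) ε (neg_ne_zero.2 hh) hε
  have hq : 1 ≤ qr F := by
    unfold qr
    exact_mod_cast Fintype.card_pos
  refine ⟨min δ1 δ2, max n1 n2, lt_min hδ1 hδ2, ?_⟩
  intro n x y hn hx hy hg
  obtain ⟨hgx, hgy, hg3⟩ := hg
  have hn1 : n1 ≤ n := le_trans (le_max_left _ _) hn
  have hn2 : n2 ≤ n := le_trans (le_max_right _ _) hn
  have hA : ∀ i0 : Fin (k + 1), ((1 / 2 + ε) * n ≤ x i0 ∨
      ∃ j j', j ≠ j' ∧ 3 / 2 * ((n : ℝ) - x i0) + ε * n ≤ (y j : ℝ) + y j') →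
      |(NS x y h : ℝ) - qr F ^ n * ∑' i : ℕ, Gs k l h i| ≤ qr F ^ ((1 - min δ1 δ2) * n) := by
    intro i0 hc
    refine le_trans (H1 n x y i0 hn1 hx hy hgx hgy hc) ?_
    refine Real.rpow_le_rpow_of_exponent_le hq ?_
    have : min δ1 δ2 ≤ δ1 := min_le_left _ _
    exact mul_le_mul_of_nonneg_right (by linarith) (Nat.cast_nonneg n)
  have hB : ∀ j0 : Fin (l + 1), ((1 / 2 + ε) * n ≤ y j0 ∨
      ∃ i i', i ≠ i' ∧ 3 / 2 * ((n : ℝ) - y j0) + ε * n ≤ (x i : ℝ) + x i') →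
      |(NS x y h : ℝ) - qr F ^ n * ∑' i : ℕ, Gs k l h i| ≤ qr F ^ ((1 - min δ1 δ2) * n) := by
    intro j0 hc
    have h1 := H2 n y x j0 hn2 hy hx hgy hgx hc
    rw [NS_symm] at h1
    simp only [Gs_symm] at h1
    refine le_trans h1 ?_
    refine Real.rpow_le_rpow_of_exponent_le hq ?_
    have : min δ1 δ2 ≤ δ2 := min_le_right _ _
    exact mul_le_mul_of_nonneg_right (by linarith) (Nat.cast_nonneg n)
  rcases hg3 with ⟨i, hi⟩ | ⟨j, hj⟩ | ⟨i, j, j', hne, hh'⟩ | ⟨j, i, i', hne, hh'⟩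
  · exact hA i (Or.inl hi)
  · exact hB j (Or.inl hj)
  · exact hA i (Or.inr ⟨j, j', hne, hh'⟩)
  · exact hB j (Or.inr ⟨i, i', hne, hh'⟩)

end Pool.Agent.Helper3.EP
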