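import Pool.Agent.Helper61.EP.StL

/-!
# Project EP (MP_cb927e_an), module LDM: domination
-/

set_option autoImplicit false

open MeasureTheory Set Filter Topology
open scoped ENNReal RealInnerProductSpace

namespace Pool.Agent.Helper3.EPL

open Pool.Agent.Helper61.EPL Pool.Agent.Helper20.RG Pool.Agent.Helper68.EP
open Pool.Agent.Helper20.RL (RQ Rich BM Fml Hit)
open Pool.Agent.Helper61.EP (trS Ex2 Yc Zc Ec am cutf)
open Pool.Agent.Helper68.LM (Pl BB Bd Av HL ft fm DQ)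

/-- the indicator of a height set is bounded with bounded support -/
lemma bb_ind (f : Pl → ℝ) (hf : BB f) (m : ℤ) : BB ((Gf f m).indicator (1 : Pl → ℝ)) := by
  obtain ⟨hm, K, hK, hK0⟩ := hf
  have hms : MeasurableSet (Gf f m) :=
    (measurableSet_le measurable_const hm).inter (measurableSet_lt hm measurable_const)
  refine ⟨measurable_one.indicator hms, max K 1, ?_, ?_⟩
  · intro x
    by_cases hx : x ∈ Gf f m
    · rw [indicator_of_mem hx]
      simp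
    · rw [indicator_of_notMem hx]
      simp
  · intro x hx
    have h1 : f x = 0 := hK0 x (lt_of_le_of_lt (le_max_left _ _) hx)
    apply indicator_of_notMem
    intro h2
    have h3 : (2 : ℝ) ^ m ≤ f x := h2.1
    have h4 : (0 : ℝ) < (2 : ℝ) ^ m := by positivity
    linarith

/-- heights are bounded -/
lemma ex_V (f : Pl → ℝ) (hf : BB f) (l : ℤ) : ∃ V : ℕ, ∀ x, f x < (2 : ℝ) ^ (l + (V : ℤ)) := by
  obtain ⟨_, K, hK, _⟩ := hf
  have h1 : (0 : ℝ) < (2 : ℝ) ^ l := by positivity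
  obtain ⟨V, hV⟩ := pow_unbounded_of_one_lt (K / (2 : ℝ) ^ l) (by norm_num : (1 : ℝ) < 2)
  refine ⟨V, fun x => ?_⟩
  have h2 : f x ≤ K := le_trans (le_abs_self _) (hK x)
  rw [zpow_add₀ (by norm_num : (2 : ℝ) ≠ 0), zpow_natCast]
  rw [div_lt_iff₀ h1] at hV
  linarith [mul_comm ((2 : ℝ) ^ l) ((2 : ℝ) ^ V)]

/-- cutting above the maximum -/
lemma cutf_stab (f : Pl → ℝ) (l : ℤ) (V U : ℕ) (hV : ∀ x, f x < (2 : ℝ) ^ (l + (V : ℤ)))
    (hU : V ≤ U) : cutf f l U = cutf f l V := by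
  have h : {x | (2 : ℝ) ^ l ≤ f x ∧ f x < (2 : ℝ) ^ (l + (U : ℤ))} =
      {x | (2 : ℝ) ^ l ≤ f x ∧ f x < (2 : ℝ) ^ (l + (V : ℤ))} := by
    ext x
    have h1 : (2 : ℝ) ^ (l + (V : ℤ)) ≤ (2 : ℝ) ^ (l + (U : ℤ)) :=
      zpow_le_zpow_right₀ (by norm_num) (by
        have : (V : ℤ) ≤ (U : ℤ) := by exact_mod_cast hU
        linarith)
    exact ⟨fun hx => ⟨hx.1, hV x⟩, fun hx => ⟨hx.1, lt_of_lt_of_le hx.2 h1⟩⟩
  unfold cutf
  rw [h]

/-- decomposition of `f` -/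
lemma le_cutf (f : Pl → ℝ) (l : ℤ) (V : ℕ) (hV : ∀ x, f x < (2 : ℝ) ^ (l + (V : ℤ))) (x : Pl) :
    f x ≤ (2 : ℝ) ^ l + cutf f l V x := by
  unfold cutf
  by_cases hx : (2 : ℝ) ^ l ≤ f x
  · rw [indicator_of_mem (show x ∈ {x | (2 : ℝ) ^ l ≤ f x ∧ f x < (2 : ℝ) ^ (l + (V : ℤ))} from
      ⟨hx, hV x⟩)]
    have : (0 : ℝ) < (2 : ℝ) ^ l := by positivity
    linarith
  · rw [indicator_of_notMem (fun h => hx h.1)]
    linarith [not_le.mp hx]

lemma cutf_nonneg (f : Pl → ℝ) (hf : ∀ x, 0 ≤ f x) (l : ℤ) (V : ℕ) (x : Pl) :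
    0 ≤ cutf f l V x := by
  unfold cutf
  exact indicator_nonneg (fun y _ => hf y) x

/-- empty height sets -/
lemma Gf_empty (f : Pl → ℝ) (l : ℤ) (V u : ℕ) (hV : ∀ x, f x < (2 : ℝ) ^ (l + (V : ℤ)))
    (hu : V ≤ u) : Gf f (l + (u : ℤ)) = ∅ := by
  apply Set.eq_empty_of_forall_notMem
  intro x hx
  have h1 : (2 : ℝ) ^ (l + (u : ℤ)) ≤ f x := hx.1
  have h2 : (2 : ℝ) ^ (l + (V : ℤ)) ≤ (2 : ℝ) ^ (l + (u : ℤ)) :=
    zpow_le_zpow_right₀ (by norm_num) (by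
      have : (V : ℤ) ≤ (u : ℤ) := by exact_mod_cast hu
      linarith)
  linarith [hV x]

/-- the average with respect to the curve is monotone up to constants -/
lemma av_le (c : Pl) (φ : ℝ → ℝ) (t a : ℝ) (f g : Pl → ℝ) (x : Pl) (ha : 0 ≤ a) (hf : BB f)
    (hg : BB g) (h : ∀ y, f y ≤ a + g y) :
    Av (arc c φ) t f x ≤ a + Av (arc c φ) t g x := by
  have h1 : arc c φ univ ≤ 1 := by
    unfold arc
    by_cases hm : AEMeasurable (fun t => c + pt t (φ t)) (volume.restrict (Icc (0 : ℝ) 1))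
    · rw [Measure.map_apply_of_aemeasurable hm MeasurableSet.univ]
      simp
    · rw [Measure.map_of_not_aemeasurable hm]
      simp
  have : IsFiniteMeasure (arc c φ) := ⟨lt_of_le_of_lt h1 ENNReal.one_lt_top⟩
  have hmap : Measurable (fun y : Pl => x - t • y) := by fun_prop
  have hi : ∀ g : Pl → ℝ, BB g → Integrable (fun y => g (x - t • y)) (arc c φ) := by
    intro g hg
    obtain ⟨hm, K, hK, _⟩ := hg
    exact Integrable.of_bound (hm.comp hmap).aestronglyMeasurable K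
      (Eventually.of_forall fun y => by
        rw [Real.norm_eq_abs]
        exact hK _)
  unfold Av
  calc ∫ y, f (x - t • y) ∂(arc c φ) ≤ ∫ y, (a + g (x - t • y)) ∂(arc c φ) :=
        integral_mono (hi f hf) ((integrable_const a).add (hi g hg)) (fun y => h _)
    _ = (arc c φ).real univ * a + ∫ y, g (x - t • y) ∂(arc c φ) := by
        rw [integral_add (integrable_const a) (hi g hg), integral_const, smul_eq_mul]
    _ ≤ a + ∫ y, g (x - t • y) ∂(arc c φ) := by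
        have h2 : (arc c φ).real univ ≤ 1 := by
          rw [Measure.real]
          exact ENNReal.toReal_le_of_le_ofReal zero_le_one (by simpa using h1)
        nlinarith

section Ops

variable (hYB : StYB) (c : Pl) (φ τ : ℝ → ℝ) (hG : Graph φ τ)

include hYB hG

/-- `Sa` is additive -/
lemma Sa_add (u : ℕ) (k : ℤ) (g h : Pl → ℝ) (hg : BB g) (hh : BB h) (x : Pl) :
    Sa c φ τ u k (fun y => g y + h y) x = Sa c φ τ u k g x + Sa c φ τ u k h x := by
  have h0 : ∀ j : ℕ, Y (τ (tm u j)) (ce c φ u j) (mm τ u j) (1 / (2 : ℝ) ^ u) k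
      (fun y => g y + h y) x = Y (τ (tm u j)) (ce c φ u j) (mm τ u j) (1 / (2 : ℝ) ^ u) k g x +
      Y (τ (tm u j)) (ce c φ u j) (mm τ u j) (1 / (2 : ℝ) ^ u) k h x := by
    intro j
    have h1 := (hYB (τ (tm u j)) (ce c φ u j) (mm τ u j) (1 / (2 : ℝ) ^ u) k g (hG.1 _)
      (by positivity) hg).2.2.2.2 1 h hh x
    simpa using h1
  unfold Sa
  rw [← mul_add, ← Finset.sum_add_distrib]
  congr 1
  exact Finset.sum_congr rfl fun j _ => h0 j

/-- zero function -/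
lemma Y_zero (u j : ℕ) (k : ℤ) (x : Pl) :
    Y (τ (tm u j)) (ce c φ u j) (mm τ u j) (1 / (2 : ℝ) ^ u) k (fun _ => 0) x = 0 := by
  have hbb : BB (fun _ : Pl => (0 : ℝ)) := ⟨measurable_const, 0, by simp, by simp⟩
  have h1 := hYB (τ (tm u j)) (ce c φ u j) (mm τ u j) (1 / (2 : ℝ) ^ u) k (fun _ => 0) (hG.1 _)
    (by positivity) hbb
  exact le_antisymm (h1.2.2.2.1 0 (fun _ => le_refl _) x) (h1.2.2.1 (fun _ => le_refl _) x)

/-- comparison with the indicator of the height set -/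
lemma Y_le (u j : ℕ) (k m : ℤ) (f : Pl → ℝ) (hf : BB f) (hg : BB ((Gf f m).indicator f)) (x : Pl) :
    Y (τ (tm u j)) (ce c φ u j) (mm τ u j) (1 / (2 : ℝ) ^ u) k ((Gf f m).indicator f) x ≤
      (2 : ℝ) ^ (m + 1) * Yc c φ τ u k ((Gf f m).indicator 1) x j := by
  have hi := bb_ind f hf m
  have hbb : BB (fun _ : Pl => (0 : ℝ)) := ⟨measurable_const, 0, by simp, by simp⟩
  have hs := hG.1 (tm u j)
  have hl : (0 : ℝ) < 1 / (2 : ℝ) ^ u := by positivity
  -- the function `2^(m+1) 1_G`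
  have hM : BB (fun y => (2 : ℝ) ^ (m + 1) * (Gf f m).indicator (1 : Pl → ℝ) y) := by
    obtain ⟨h1, K, h2, h3⟩ := hi
    refine ⟨measurable_const.mul h1, max K ((2 : ℝ) ^ (m + 1) * K), ?_, ?_⟩
    · intro y
      rw [abs_mul, abs_of_pos (by positivity : (0 : ℝ) < (2 : ℝ) ^ (m + 1))]
      exact le_trans (mul_le_mul_of_nonneg_left (h2 y) (by positivity)) (le_max_right _ _)
    · intro y hy
      simp only [h3 y (lt_of_le_of_lt (le_max_left _ _) hy), mul_zero]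
  have e1 : Y (τ (tm u j)) (ce c φ u j) (mm τ u j) (1 / (2 : ℝ) ^ u) k
      (fun y => (2 : ℝ) ^ (m + 1) * (Gf f m).indicator (1 : Pl → ℝ) y) x =
      (2 : ℝ) ^ (m + 1) * Yc c φ τ u k ((Gf f m).indicator 1) x j := by
    have h1 := (hYB (τ (tm u j)) (ce c φ u j) (mm τ u j) (1 / (2 : ℝ) ^ u) k
      ((Gf f m).indicator 1) hs hl hi).2.2.2.2 ((2 : ℝ) ^ (m + 1)) (fun _ => 0) hbb x
    rw [Y_zero hYB c φ τ hG u j k x, add_zero] at h1
    simp only [add_zero] at h1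
    exact h1
  have hpos : ∀ y, 0 ≤ (-1 : ℝ) * (Gf f m).indicator f y +
      (2 : ℝ) ^ (m + 1) * (Gf f m).indicator (1 : Pl → ℝ) y := by
    intro y
    by_cases hy : y ∈ Gf f m
    · rw [indicator_of_mem hy, indicator_of_mem hy]
      have := hy.2
      simp only [Pi.one_apply, mul_one]
      linarith
    · rw [indicator_of_notMem hy, indicator_of_notMem hy]
      simp
  have hbd : BB (fun y => (-1 : ℝ) * (Gf f m).indicator f y +
      (2 : ℝ) ^ (m + 1) * (Gf f m).indicator (1 : Pl → ℝ) y) := by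
    obtain ⟨h1, K, h2, h3⟩ := hg
    obtain ⟨h1', K', h2', h3'⟩ := hM
    refine ⟨(measurable_const.mul h1).add h1', max (max K K') (K + K'), ?_, ?_⟩
    · intro y
      refine le_trans ?_ (le_max_right _ _)
      refine le_trans (abs_add_le _ _) (add_le_add ?_ (h2' y))
      rw [abs_mul]
      simpa using h2 y
    · intro y hy
      have hy1 : K < ‖y‖ := lt_of_le_of_lt (le_trans (le_max_left _ _) (le_max_left _ _)) hy
      have hy2 : K' < ‖y‖ := lt_of_le_of_lt (le_trans (le_max_right _ _) (le_max_left _ _)) hy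
      simp only [h3 y hy1]
      have h5 := h3' y hy2
      simp only at h5
      rw [h5]
      simp
  have h2 := (hYB (τ (tm u j)) (ce c φ u j) (mm τ u j) (1 / (2 : ℝ) ^ u) k
      _ hs hl hbd).2.2.1 hpos x
  have h3 := (hYB (τ (tm u j)) (ce c φ u j) (mm τ u j) (1 / (2 : ℝ) ^ u) k
      ((Gf f m).indicator f) hs hl hg).2.2.2.2 (-1) _ hM x
  rw [h3, e1] at h2
  linarith

/-- the sum over the chords -/
lemma Sa_le (u : ℕ) (k l : ℤ) (f : Pl → ℝ) (hf : BB f)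
    (hg : BB ((Gf f (l + (u : ℤ))).indicator f)) (x : Pl) :
    Sa c φ τ u k ((Gf f (l + (u : ℤ))).indicator f) x ≤
      2 * (2 : ℝ) ^ l * ∑ j ∈ Finset.range (2 ^ u),
        Yc c φ τ u k ((Gf f (l + (u : ℤ))).indicator 1) x j := by
  unfold Sa
  have h1 : ∑ j ∈ Finset.range (2 ^ u), Y (τ (tm u j)) (ce c φ u j) (mm τ u j) (1 / (2 : ℝ) ^ u) k
      ((Gf f (l + (u : ℤ))).indicator f) x ≤
      (2 : ℝ) ^ (l + (u : ℤ) + 1) * ∑ j ∈ Finset.range (2 ^ u),
        Yc c φ τ u k ((Gf f (l + (u : ℤ))).indicator 1) x j := by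
    rw [Finset.mul_sum]
    exact Finset.sum_le_sum fun j _ => Y_le hYB c φ τ hG u j k _ f hf hg x
  have h2 : (2 : ℝ) ^ (l + (u : ℤ) + 1) = 2 * (2 : ℝ) ^ l * (2 : ℝ) ^ u := by
    rw [zpow_add₀ (by norm_num : (2 : ℝ) ≠ 0), zpow_add₀ (by norm_num : (2 : ℝ) ≠ 0), zpow_natCast]
    ring
  rw [h2] at h1
  have h3 : (0 : ℝ) < (2 : ℝ) ^ u := by positivity
  calc 1 / (2 : ℝ) ^ u * ∑ j ∈ Finset.range (2 ^ u), Y (τ (tm u j)) (ce c φ u j) (mm τ u j)
        (1 / (2 : ℝ) ^ u) k ((Gf f (l + (u : ℤ))).indicator f) x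
      ≤ 1 / (2 : ℝ) ^ u * (2 * (2 : ℝ) ^ l * (2 : ℝ) ^ u * ∑ j ∈ Finset.range (2 ^ u),
        Yc c φ τ u k ((Gf f (l + (u : ℤ))).indicator 1) x j) :=
        mul_le_mul_of_nonneg_left h1 (by positivity)
    _ = _ := by field_simp

end Ops

/-- telescoping -/
lemma tele (hYB : StYB) (hLZF : StLZF) (c : Pl) (φ τ : ℝ → ℝ) (hG : Graph φ τ) (k l : ℤ)
    (f : Pl → ℝ) (hf : BB f) (U₀ : ℕ) (x : Pl) (n : ℕ) :
    Sa c φ τ (U₀ + n) k (cutf f l (U₀ + n)) x = Sa c φ τ U₀ k (cutf f l U₀) x +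
      (∑ u ∈ Finset.Ico U₀ (U₀ + n), Sa c φ τ u k ((Gf f (l + (u : ℤ))).indicator f) x) +
      (∑ u ∈ Finset.Ioc U₀ (U₀ + n), Zc c φ τ u k (cutf f l u) x) +
      ∑ i ∈ Finset.range n, Ec c φ τ (U₀ + i + 1) k (cutf f l (U₀ + i + 1)) x := by
  induction n with
  | zero => simp
  | succ n ih =>
    have h1 : U₀ + (n + 1) = U₀ + n + 1 := by ring
    rw [h1, Finset.sum_Ico_succ_top (Nat.le_add_right _ _),
      Finset.sum_Ioc_succ_top (Nat.le_add_right _ _), Finset.sum_range_succ]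
    have h2 : cutf f l (U₀ + n + 1) = fun y => cutf f l (U₀ + n) y +
        (Gf f (l + ((U₀ + n : ℕ) : ℤ))).indicator f y := by
      funext y
      rw [hLZF.2.2.2.1, hLZF.2.2.2.1, Finset.sum_range_succ]
    have h3 : Sa c φ τ (U₀ + n) k (cutf f l (U₀ + n + 1)) x =
        Sa c φ τ (U₀ + n) k (cutf f l (U₀ + n)) x +
          Sa c φ τ (U₀ + n) k ((Gf f (l + ((U₀ + n : ℕ) : ℤ))).indicator f) x := by
      rw [h2]
      exact Sa_add hYB c φ τ hG _ k _ _ ((hLZF.2.2.2.2 f hf l).2 _) ((hLZF.2.2.2.2 f hf _).1) x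
    have h4 : Ec c φ τ (U₀ + n + 1) k (cutf f l (U₀ + n + 1)) x =
        Sa c φ τ (U₀ + n + 1) k (cutf f l (U₀ + n + 1)) x -
          Sa c φ τ (U₀ + n) k (cutf f l (U₀ + n + 1)) x -
          Zc c φ τ (U₀ + n + 1) k (cutf f l (U₀ + n + 1)) x := by
      unfold Ec
      simp
    linarith

/-- LDM -/
theorem hLDM (_hPT : Pool.Agent.Helper20.RG.StPT) (hYB : Pool.Agent.Helper20.RG.StYB)
    (hLZF : Pool.Agent.Helper61.EPL.StLZF) (hLDI : Pool.Agent.Helper61.EPL.StLDI) :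
    Pool.Agent.Helper61.EPL.StLDM := by
  intro φ τ A₁ p c hG hGap hA hp U₀ f _hU₀ hf hf0
  choose V hV using ex_V f hf
  have hae : ∀ᵐ x : Pl, ∀ l k : ℤ, ENNReal.ofReal (Av (arc c φ) ((2 : ℝ) ^ k) (cutf f l (V l)) x) ≤
      liminf (fun U : ℕ => ENNReal.ofReal (4 * Sa c φ τ U k (cutf f l (V l)) x)) atTop := by
    rw [ae_all_iff]
    intro l
    exact hLDI φ τ A₁ p c hG hGap hA hp (cutf f l (V l)) ((hLZF.2.2.2.2 f hf l).2 _)
      (cutf_nonneg f hf0 l _)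
  filter_upwards [hae] with x hx k l h5 hSa hE hZ
  refine ⟨max (V l) U₀, ?_⟩
  by_contra hT
  rw [not_le] at hT
  set W : ℕ := max (V l) U₀ with hW
  set T : ℝ := ∑ u ∈ Finset.Ico U₀ W, ∑ j ∈ Finset.range (2 ^ u),
    Yc c φ τ u k ((Gf f (l + (u : ℤ))).indicator 1) x j with hTdef
  have h2l : (0 : ℝ) < (2 : ℝ) ^ l := by positivity
  have hAv := av_le c φ ((2 : ℝ) ^ k) ((2 : ℝ) ^ l) f (cutf f l (V l)) x h2l.le hf
    ((hLZF.2.2.2.2 f hf l).2 _) (le_cutf f l (V l) (hV l))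
  have h4 : 4 * (2 : ℝ) ^ l < Av (arc c φ) ((2 : ℝ) ^ k) (cutf f l (V l)) x := by linarith
  -- eventually `4 Sa` is large
  have hev : ∀ᶠ U : ℕ in atTop, 4 * (2 : ℝ) ^ l < 4 * Sa c φ τ U k (cutf f l (V l)) x := by
    have h6 : ENNReal.ofReal (4 * (2 : ℝ) ^ l) <
        liminf (fun U : ℕ => ENNReal.ofReal (4 * Sa c φ τ U k (cutf f l (V l)) x)) atTop :=
      lt_of_lt_of_le ((ENNReal.ofReal_lt_ofReal_iff (lt_trans (by positivity) h4)).mpr h4) (hx l k)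
    filter_upwards [eventually_lt_of_lt_liminf h6] with U hU
    exact (ENNReal.ofReal_lt_ofReal_iff_of_nonneg (by positivity)).mp hU
  -- frequently the `Z` sum is small
  have hfr : ∃ᶠ U : ℕ in atTop, ‖∑ u ∈ Finset.Ioc U₀ U, Zc c φ τ u k (cutf f l u) x‖ₑ <
      ENNReal.ofReal ((2 : ℝ) ^ l / 4 * (1 + (1 - 8 * T))) := by
    apply frequently_lt_of_liminf_lt (by isBoundedDefault)
    refine lt_of_le_of_lt hZ ((ENNReal.ofReal_lt_ofReal_iff ?_).mpr ?_)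
    · have : 0 < 1 + (1 - 8 * T) := by linarith
      positivity
    · have : 0 < 1 - 8 * T := by linarith
      nlinarith
  obtain ⟨U, hUz, hUs, hUW⟩ := (hfr.and_eventually (hev.and (eventually_ge_atTop W))).exists
  obtain ⟨n, hn⟩ := Nat.exists_eq_add_of_le (le_trans (le_max_right (V l) U₀) hUW)
  subst hn
  have htel := tele hYB hLZF c φ τ hG k l f hf U₀ x n
  have hst := cutf_stab f l (V l) (U₀ + n) (hV l) (le_trans (le_max_left _ _) hUW)
  rw [← hst] at hUs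
  -- the sum of the levels
  have hL : ∑ u ∈ Finset.Ico U₀ (U₀ + n), Sa c φ τ u k ((Gf f (l + (u : ℤ))).indicator f) x ≤
      2 * (2 : ℝ) ^ l * T := by
    have h7 : ∑ u ∈ Finset.Ico U₀ (U₀ + n), Sa c φ τ u k ((Gf f (l + (u : ℤ))).indicator f) x ≤
        ∑ u ∈ Finset.Ico U₀ (U₀ + n), 2 * (2 : ℝ) ^ l * ∑ j ∈ Finset.range (2 ^ u),
          Yc c φ τ u k ((Gf f (l + (u : ℤ))).indicator 1) x j :=
      Finset.sum_le_sum fun u _ => Sa_le hYB c φ τ hG u k l f hf ((hLZF.2.2.2.2 f hf _).1) x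
    refine le_trans h7 (le_of_eq ?_)
    rw [← Finset.mul_sum, hTdef]
    congr 1
    rw [← Finset.sum_Ico_consecutive _ (le_max_right (V l) U₀) hUW]
    rw [add_eq_left]
    apply Finset.sum_eq_zero
    intro u hu
    have hu1 : V l ≤ u := le_trans (le_max_left _ _) (Finset.mem_Ico.mp hu).1
    rw [Gf_empty f l (V l) u (hV l) hu1]
    apply Finset.sum_eq_zero
    intro j _
    have h8 : ((∅ : Set Pl).indicator (1 : Pl → ℝ)) = fun _ => 0 := by
      funext y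
      simp
    rw [h8]
    exact Y_zero hYB c φ τ hG u j k x
  -- the errors
  have hEs : ∑ i ∈ Finset.range n, Ec c φ τ (U₀ + i + 1) k (cutf f l (U₀ + i + 1)) x ≤
      (2 : ℝ) ^ l / 4 := by
    have h9 : ∑ i ∈ Finset.range n, ‖Ec c φ τ (U₀ + i + 1) k (cutf f l (U₀ + i + 1)) x‖ₑ ≤
        ENNReal.ofReal ((2 : ℝ) ^ l / 4) := le_trans (ENNReal.sum_le_tsum _) hE
    have h10 : ENNReal.ofReal (∑ i ∈ Finset.range n,
        |Ec c φ τ (U₀ + i + 1) k (cutf f l (U₀ + i + 1)) x|) ≤ ENNReal.ofReal ((2 : ℝ) ^ l / 4) := by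
      rw [ENNReal.ofReal_sum_of_nonneg (fun i _ => abs_nonneg _)]
      refine le_trans (le_of_eq ?_) h9
      exact Finset.sum_congr rfl fun i _ => (Real.enorm_eq_ofReal_abs _).symm
    have h11 := (ENNReal.ofReal_le_ofReal_iff (by positivity)).mp h10
    exact le_trans (Finset.sum_le_sum fun i _ => le_abs_self _) h11
  have hZs : ∑ u ∈ Finset.Ioc U₀ (U₀ + n), Zc c φ τ u k (cutf f l u) x <
      (2 : ℝ) ^ l / 4 * (1 + (1 - 8 * T)) := by
    rw [Real.enorm_eq_ofReal_abs] at hUz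
    exact lt_of_le_of_lt (le_abs_self _)
      ((ENNReal.ofReal_lt_ofReal_iff_of_nonneg (abs_nonneg _)).mp hUz)
  rw [htel] at hUs
  nlinarith

end Pool.Agent.Helper3.EPL
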